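import Pool.Agent.KS6_19.CX.Dim
import Pool.Agent.KS6_19.CX.Thin

/-!
# MP_034ae1_an: the critical dimension of the sets that are not removable for convexity is one

For every `s > 1` there is a compact, totally disconnected, Lebesgue null subset of the plane of
Hausdorff dimension at most `s` that is not c-removable (and it has a null projection). Conversely
every closed set of one-dimensional Hausdorff measure zero, in particular every closed set of
dimension less than one, is c-removable.

The bad sets come from the self-similar functions `F (x, y) = δ ∑ w_i (x) F (2 x, y / δ - c_i)` of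
the library, whose scale `δ` can be taken as small as we like.
-/

set_option autoImplicit false

open Set MeasureTheory
open scoped ENNReal NNReal

namespace Pool.Agent.Results.MP_034ae1_an.CriticalDimension

/-- `f` is locally convex on `U`: every point of `U` has an open convex neighbourhood `V ⊆ U` on
which `f` is convex. -/
def LocallyConvexOn (f : ℝ × ℝ → ℝ) (U : Set (ℝ × ℝ)) : Prop :=
  ∀ z ∈ U, ∃ V : Set (ℝ × ℝ), IsOpen V ∧ Convex ℝ V ∧ z ∈ V ∧ V ⊆ U ∧ ConvexOn ℝ V f

/-- A planar set `A` is c-removable if every continuous real function on the plane which is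
locally convex on the complement of `A` is convex on the whole plane. -/
def CRemovable (A : Set (ℝ × ℝ)) : Prop :=
  ∀ f : ℝ × ℝ → ℝ, Continuous f → LocallyConvexOn f Aᶜ → ConvexOn ℝ univ f

/-- (1) For every `s > 1` there is a compact, totally disconnected set `E` in the plane, of Lebesgue
measure zero (and even with a Lebesgue null projection on the second axis) and of Hausdorff
dimension between `1` and `s`, that is not c-removable. (2) Every set whose one-dimensional
Hausdorff measure is zero, in particular every set of Hausdorff dimension less than one, is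
c-removable. (3) So `1` is the infimum of the dimensions of the compact, totally disconnected, Lebesgue
null sets that are not c-removable. (Hausdorff measures and dimensions are those of `ℝ × ℝ` with the
maximum norm; the dimension and the null sets are the same for the Euclidean norm.) -/
theorem result :
    (∀ s : ℝ≥0, 1 < s → ∃ E : Set (ℝ × ℝ), IsCompact E ∧ IsTotallyDisconnected E ∧
      volume E = 0 ∧ volume (Prod.snd '' E) = 0 ∧ 1 ≤ dimH E ∧ dimH E ≤ s ∧ ¬ CRemovable E) ∧
    (∀ E : Set (ℝ × ℝ), (Measure.hausdorffMeasure 1 E = 0 → CRemovable E) ∧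
      (dimH E < 1 → CRemovable E)) ∧
    IsGLB {x : ℝ≥0∞ | ∃ E : Set (ℝ × ℝ), IsCompact E ∧ IsTotallyDisconnected E ∧ volume E = 0 ∧
      ¬ CRemovable E ∧ dimH E = x} 1 := by
  have h2 : ∀ E : Set (ℝ × ℝ), Measure.hausdorffMeasure 1 E = 0 → CRemovable E :=
    fun E h0 f hf hloc => Pool.Agent.KS6_19.CX.Thin.convex_of_hausdorff_null hf hloc h0
  have h3 : ∀ E : Set (ℝ × ℝ), dimH E < 1 → CRemovable E := by
    intro E hE
    apply h2
    have h4 : Measure.hausdorffMeasure ((1 : ℝ≥0) : ℝ) E = 0 :=
      hausdorffMeasure_of_dimH_lt (by simpa using hE)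
    simpa using h4
  have h1 : ∀ s : ℝ≥0, 1 < s → ∃ E : Set (ℝ × ℝ), IsCompact E ∧ IsTotallyDisconnected E ∧
      volume E = 0 ∧ volume (Prod.snd '' E) = 0 ∧ 1 ≤ dimH E ∧ dimH E ≤ s ∧ ¬ CRemovable E := by
    intro s hs
    obtain ⟨E, e1, e2, e3, e4, e5, f, f1, f2, f3⟩ := T6H52.Cvx.exists_small_dimension s hs
    have hE : ¬ CRemovable E := fun h => f3 (h f f1 f2)
    exact ⟨E, e1, e2, e3, e4, not_lt.1 fun h => hE (h3 E h), e5, hE⟩
  refine ⟨h1, fun E => ⟨h2 E, h3 E⟩, ?_, ?_⟩
  · rintro x ⟨E, -, -, -, hE, rfl⟩
    exact not_lt.1 fun h => hE (h3 E h)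
  · intro x hx
    refine ENNReal.le_of_forall_nnreal_lt fun r hr => ?_
    by_contra hcon
    have hr1 : (1 : ℝ≥0) < r := by
      have := not_le.1 hcon
      exact_mod_cast this
    obtain ⟨s, hs1, hs2⟩ := exists_between hr1
    obtain ⟨E, e1, e2, e3, -, -, e5, e6⟩ := h1 s hs1
    have h4 := hx ⟨E, e1, e2, e3, e6, rfl⟩
    have h5 : (r : ℝ≥0∞) < s := hr.trans_le (h4.trans e5)
    exact absurd (ENNReal.coe_lt_coe.1 h5) (not_lt.2 hs2.le)

end Pool.Agent.Results.MP_034ae1_an.CriticalDimension
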